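import Pool.Agent.MWFE.StmtsB

/-!
# Squad MWFE, row CPB: the base of the induction
-/

set_option autoImplicit false

namespace Pool.Agent.MWFE.H62

open Pool.Agent.Helper14_MV Pool.Agent.Helper2_MV Pool.Agent.MVD Pool.Agent.MWFE
open Pool.Agent.MWE (Can XX fxy dxy dx dy up cp L4 pr Xs xl isx Fs nd nr)

theorem fm_nil (g : ℕ → List ℕ) (D : List ℕ) (hg : ∀ a ∈ D, g a = []) : D.flatMap g = [] := by
  induction D with
  | nil => rfl
  | cons a D ih =>
    rw [List.flatMap_cons, hg a (List.mem_cons_self ..),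
      ih fun b hb => hg b (List.mem_cons_of_mem a hb)]
    rfl

theorem fm_one (g : ℕ → List ℕ) (v : ℕ) (D : List ℕ) (hv : D.count v = 1)
    (hg : ∀ a ∈ D, a ≠ v → g a = []) : D.flatMap g = g v := by
  induction D with
  | nil => simp at hv
  | cons a D ih =>
    rw [List.flatMap_cons]
    by_cases ha : a = v
    · rw [ha]
      have h0 : v ∉ D := by
        rw [ha, List.count_cons_self] at hv
        exact List.count_eq_zero.mp (by omega)
      rw [fm_nil g D fun b hb => hg b (List.mem_cons_of_mem a hb) (fun e => h0 (e ▸ hb)),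
        List.append_nil]
    · rw [hg a (List.mem_cons_self ..) ha, List.nil_append]
      refine ih ?_ fun b hb => hg b (List.mem_cons_of_mem a hb)
      rwa [List.count_cons_of_ne ha] at hv

theorem rep_nil (g : ℕ → List ℕ) (h : g 4 = []) (k : ℕ) : (List.replicate k 4).flatMap g = [] :=
  fm_nil g _ fun a ha => by rw [List.eq_of_mem_replicate ha]; exact h

theorem tk_fm (g : ℕ → List ℕ) (h : g 4 = []) (n v l : ℕ) : (tk n 4 v l).flatMap g = g v := by
  unfold tk
  rw [List.flatMap_append, List.flatMap_cons, rep_nil g h, rep_nil g h, List.append_nil,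
    List.nil_append]

theorem bw3 (B : ℕ → List ℕ) : Bw [0, 1, 2] B =
    B 0 ++ [2] ++ (B 1 ++ [5] ++ (B 2 ++ [8])) := by
  simp [Bw]

theorem left_fm (g : ℕ → List ℕ) (h : g 4 = []) (h8 : g 8 = []) (n : ℕ) (X : List ℕ) :
    (ExZ n 1 [0, 1, 2] [1] X).flatMap g =
      X.flatMap g ++ (g 2 ++ (g 0 ++ (g 1 ++ (g 3 ++ (g 5 ++ g 1))))) := by
  have h1 : (KZ n 4 X).flatMap g = X.flatMap g := by
    unfold KZ
    induction X with
    | nil => rfl
    | cons a X ih =>
      rw [List.flatMap_cons, List.flatMap_append, tk_fm g h, ih, List.flatMap_cons]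
  unfold ExZ Eg
  rw [bw3]
  simp only [List.flatMap_append, List.flatMap_cons, List.flatMap_nil, List.append_nil]
  have h2 : (KZ n (3 * 1 + 1) X) = KZ n 4 X := rfl
  simp [h1, h8]

/-- the first projection -/
def g1 (a : ℕ) : List ℕ :=
  if a = 0 then [0] else if a = 1 then [3] else if a = 2 then [2] else if a = 5 then [5] else []

/-- the second projection -/
def g2 (a : ℕ) : List ℕ :=
  if a = 3 then [0] else if a = 1 then [3] else if a = 2 then [2] else if a = 5 then [5] else []

theorem g1_nil {a : ℕ} (h0 : a ≠ 0) (h1 : a ≠ 1) (hs : a % 3 ≠ 2) : g1 a = [] := by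
  unfold g1
  rw [if_neg h0, if_neg h1, if_neg (by rintro rfl; exact hs rfl),
    if_neg (by rintro rfl; exact hs rfl)]

theorem g2_nil {a : ℕ} (h0 : a ≠ 3) (h1 : a ≠ 1) (hs : a % 3 ≠ 2) : g2 a = [] := by
  unfold g2
  rw [if_neg h0, if_neg h1, if_neg (by rintro rfl; exact hs rfl),
    if_neg (by rintro rfl; exact hs rfl)]

theorem cpb (hbaz : BazStmt) : CpbStmt := by
  intro n β hz X B e hX hB he hR
  have hcan : Can 1 [1] := by
    refine ⟨?_, ?_⟩
    · intro d hd
      obtain rfl : d = 0 := by omega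
      rfl
    · intro a ha
      left
      exact ⟨0, by omega, by rw [List.mem_singleton.mp ha]⟩
  have hsf : ∀ r, SFr (pz n (3 * 1 + 1) B r) := by
    intro r
    unfold pz up
    by_cases hr : r = 0
    · rw [if_pos hr]
      intro a ha
      rw [List.mem_append, List.mem_append] at ha
      rcases ha with ha | ha | ha
      · rw [List.eq_of_mem_replicate ha]
        decide
      · exact hB 0 a ha
      · rw [List.eq_of_mem_replicate ha]
        decide
    · rw [if_neg hr]
      exact hB r
  have hb01 : Bfr [0, 1, 2] 0 1 := ⟨[], [], [2], rfl⟩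
  obtain ⟨B', hB'⟩ : ∃ B' : ℕ → List ℕ, B' = pz n (3 * 1 + 1) B := ⟨_, rfl⟩
  have hB1 : B' 1 = B 1 := by
    rw [hB']
    rfl
  have hb := hbaz n β 1 [0, 1, 2] [1] X (pz n (3 * 1 + 1) B) e hz hcan
    (by decide) hb01 hX hsf he hR
  rw [← hB'] at hb hR hsf
  -- counts
  have c0 : (B' 0).count 1 = 0 := by
    have h := hb.li 0 (by omega) 0 (by decide)
    simpa using h
  have c1 : (B' 1).count 1 = 1 := by
    have h := hb.li 0 (by omega) 1 (by decide)
    simpa using h
  have c2 : (B' 2).count 1 = 1 := by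
    have h := hb.li 0 (by omega) 2 (by decide)
    simpa using h
  have e1 : 1 ∉ e := hb.le 0 (by omega)
  have hperm : (B' 1).Perm [0, 1, 3] := by
    rw [List.perm_iff_count]
    intro a
    by_cases h0 : a = 0
    · rw [h0, hb.x1]
      rfl
    by_cases h1 : a = 1
    · rw [h1, c1]
      rfl
    by_cases h3 : a = 3
    · rw [h3, hb.y1]
      rfl
    have hnot : a ∉ B' 1 := by
      intro ha
      have hmem : a ∈ Bw [0, 1, 2] B' ++ e := by
        rw [bw3]
        simp [ha]
      rcases hb.ct a hmem (hsf 1 a ha) with h | h | h | h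
      · exact h0 h
      · exact h3 h
      · exact hb.z1 1 (by decide) hb01 (h ▸ ha)
      · exact h1 (List.mem_singleton.mp h)
    rw [List.count_eq_zero.mpr hnot]
    symm
    rw [List.count_eq_zero]
    simp [h0, h1, h3]
  -- the first projection
  have r1 := RR.sub (β := β) g1 hR
  rw [left_fm g1 rfl rfl, List.flatMap_append, bw3] at r1
  simp only [List.flatMap_append] at r1
  rw [fm_one g1 0 (B' 0) hb.x0 (fun a ha hne => g1_nil hne
      (fun h => List.count_eq_zero.mp c0 (h ▸ ha)) (hsf 0 a ha)),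
    fm_one g1 1 (B' 2) c2 (fun a ha hne => g1_nil
      (fun h => hb.xo 2 (by decide) (by decide) (by decide) (h ▸ ha)) hne (hsf 2 a ha)),
    fm_nil g1 e (fun a ha => g1_nil (fun h => hb.xe (h ▸ ha))
      (fun h => e1 (h ▸ ha)) (hb.se a ha))] at r1
  -- the second projection
  have r2 := RR.sub (β := β) g2 hR
  rw [left_fm g2 rfl rfl, List.flatMap_append, bw3] at r2
  simp only [List.flatMap_append] at r2
  rw [fm_one g2 3 (B' 0) hb.y0 (fun a ha hne => g2_nil hne
      (fun h => List.count_eq_zero.mp c0 (h ▸ ha)) (hsf 0 a ha)),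
    fm_one g2 1 (B' 2) c2 (fun a ha hne => g2_nil
      (fun h => hb.yo 2 (by decide) (by decide) (by decide) (h ▸ ha)) hne (hsf 2 a ha)),
    fm_nil g2 e (fun a ha => g2_nil (fun h => hb.ye (h ▸ ha))
      (fun h => e1 (h ▸ ha)) (hb.se a ha))] at r2
  have x1 : X.flatMap g1 = [0] := by
    rcases hX with h | h <;> rw [h] <;> rfl
  have x2 : X.flatMap g2 = [0] := by
    rcases hX with h | h <;> rw [h] <;> rfl
  rw [x1] at r1
  rw [x2] at r2
  have hs2 : ¬ RR β [0, 2, 0, 3, 5, 3] [0, 2, 3, 0, 5, 3] := hz.s2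
  have hlist : B' 1 = [0, 1, 3] ∨ B' 1 = [0, 3, 1] ∨ B' 1 = [1, 0, 3] ∨ B' 1 = [1, 3, 0] ∨
      B' 1 = [3, 0, 1] ∨ B' 1 = [3, 1, 0] := by
    obtain ⟨a, b, c, hl⟩ := List.length_eq_three.mp (hperm.length_eq.trans rfl)
    have hnd : (B' 1).Nodup := hperm.symm.nodup (by decide)
    have hsub : ∀ x ∈ B' 1, x = 0 ∨ x = 1 ∨ x = 3 := by
      intro x hx
      have h := hperm.subset hx
      simpa using h
    rw [hl] at hnd hsub ⊢
    have ha := hsub a (by simp)
    have hb' := hsub b (by simp)
    have hc := hsub c (by simp)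
    simp only [List.nodup_cons, List.mem_cons, List.not_mem_nil, or_false, not_or,
      List.nodup_nil, and_true, not_false_eq_true] at hnd
    obtain ⟨⟨n1, n2⟩, n3⟩ := hnd
    rcases ha with rfl | rfl | rfl <;> rcases hb' with rfl | rfl | rfl <;>
      rcases hc with rfl | rfl | rfl <;>
      first
        | exact absurd rfl n1
        | exact absurd rfl n2
        | exact absurd rfl n3
        | simp
  rw [← hB1]
  rcases hlist with h | h | h | h | h | h
  · refine ⟨[1], h, by decide, by decide, fun a ha => ha, fun a ha => ha⟩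
  · rw [h] at r2
    exact absurd (RR.symm r2) hs2
  · rw [h] at r1
    exact absurd r1 hs2
  · rw [h] at r1
    exact absurd r1 hs2
  · rw [h] at r2
    exact absurd (RR.symm r2) hs2
  · rw [h] at r1
    exact absurd r1 hs2

end Pool.Agent.MWFE.H62
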